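import Pool.Agent.helper47.MSW.SpecA

/-!
# Project msw (MP_a87880_co), row ASC: associativity of the direct sum
-/

set_option autoImplicit false

namespace Pool.Agent.MSW

open Equiv Finset Function MeasureTheory Pool.Agent.helper48.PP
open Pool.Agent.DSW (Pr Has GP wt)
open scoped ENNReal Classical

noncomputable section

theorem ASC_ext {k l : ℕ} (h : k = l) (σ : Perm (Fin k)) (τ : Perm (Fin l))
    (H : ∀ j : Fin k, (σ j : ℕ) = τ (Fin.cast h j)) :
    (⟨k, σ⟩ : Σ k : ℕ, Perm (Fin k)) = ⟨l, τ⟩ := by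
  subst h
  have : σ = τ := by
    ext j
    exact H j
  rw [this]

theorem ASC_val {a b : ℕ} (x : Perm (Fin a)) (y : Perm (Fin b)) (j : Fin (a + b)) :
    (dsum x y j : ℕ) = if h : j.1 < a then (x ⟨j.1, h⟩ : ℕ)
      else a + (y ⟨j.1 - a, by omega⟩ : ℕ) := by
  refine Fin.addCases (fun s => ?_) (fun s => ?_) j
  · rw [dsum_castAdd]
    have h : (Fin.castAdd b s).1 < a := s.2
    rw [dif_pos h]
    rfl
  · rw [dsum_natAdd]
    have h : ¬ (Fin.natAdd a s).1 < a := by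
      simp
    rw [dif_neg h]
    rw [Fin.val_natAdd]
    refine congrArg (fun t : Fin b => a + (y t : ℕ)) (Fin.ext ?_)
    simp

theorem ASC_assoc {a b c : ℕ} (x : Perm (Fin a)) (y : Perm (Fin b)) (z : Perm (Fin c)) :
    (⟨a + b + c, dsum (dsum x y) z⟩ : Σ k : ℕ, Perm (Fin k)) =
      ⟨a + (b + c), dsum x (dsum y z)⟩ := by
  refine ASC_ext (Nat.add_assoc a b c) _ _ fun j => ?_
  rw [ASC_val, ASC_val]
  simp only [Fin.val_cast]
  by_cases h1 : j.1 < a
  · have h2 : j.1 < a + b := by omega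
    rw [dif_pos h2, dif_pos h1, ASC_val, dif_pos h1]
  · by_cases h2 : j.1 < a + b
    · rw [dif_pos h2, dif_neg h1, ASC_val, ASC_val]
      have h3 : j.1 - a < b := by omega
      rw [dif_neg h1, dif_pos h3]
    · rw [dif_neg h2, dif_neg h1, ASC_val]
      have h3 : ¬ j.1 - a < b := by omega
      rw [dif_neg h3]
      have e : j.1 - (a + b) = j.1 - a - b := by omega
      simp only [e]
      omega

theorem ASC_left {b : ℕ} (y : Perm (Fin b)) :
    (⟨0 + b, dsum (1 : Perm (Fin 0)) y⟩ : Σ k : ℕ, Perm (Fin k)) = ⟨b, y⟩ := by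
  refine ASC_ext (Nat.zero_add b) _ _ fun j => ?_
  rw [ASC_val, dif_neg (Nat.not_lt_zero _), Nat.zero_add]
  rfl

theorem ASC_right {a : ℕ} (x : Perm (Fin a)) :
    (⟨a + 0, dsum x (1 : Perm (Fin 0))⟩ : Σ k : ℕ, Perm (Fin k)) = ⟨a, x⟩ := by
  refine ASC_ext (Nat.add_zero a) _ _ fun j => ?_
  have h : j.1 < a := j.2
  rw [ASC_val, dif_pos h]
  rfl

/-- the direct sum on the sigma type -/
def ASC_D (s t : Σ k : ℕ, Perm (Fin k)) : Σ k : ℕ, Perm (Fin k) := ⟨s.1 + t.1, dsum s.2 t.2⟩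

theorem ASC_flat (X Y : List Pat) : flat (X ++ Y) = ASC_D (flat X) (flat Y) := by
  induction X with
  | nil => exact (ASC_left (flat Y).2).symm
  | cons b l ih =>
    have h1 : flat (b :: l ++ Y) = ASC_D ⟨b.1 + 1, b.2⟩ (flat (l ++ Y)) := rfl
    rw [h1, ih]
    exact (ASC_assoc b.2 (flat l).2 (flat Y).2).symm

theorem ASC : ASC_stmt := by
  refine ⟨ASC_flat, ?_⟩
  intro X Y b n
  have h1 : flat (X ++ [b] ++ Y) = ASC_D (ASC_D (flat X) ⟨b.1 + 1, b.2⟩) (flat Y) := by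
    rw [ASC_flat, ASC_flat]
    have h2 : flat [b] = ⟨b.1 + 1, b.2⟩ := ASC_right b.2
    rw [h2]
  exact congrArg (fun s : Σ k : ℕ, Perm (Fin k) => avCount n s.2) h1

end

end Pool.Agent.MSW
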